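import Pool.Agent.Y537.D7.C
import Pool.Agent.Y7.DDef

/-!
Divergence-free extension of a local solution of the Navier-Stokes equations (helper537, job 1940
of helper7).
-/

set_option autoImplicit false

open MeasureTheory Set Metric Filter Topology Function
open scoped ContDiff ENNReal NNReal

namespace Pool.Agent.Y537.D7

open H459R3.NS W221.NS

/-- The extension of a local solution. -/
theorem dext : Pool.Agent.Y7.D.S_DEXT := by
  intro T E Ω u p h x₀ R hR hB
  obtain ⟨w, h1, h2, h3, h4⟩ := ext_core h.openO h.smooth_u h.divfree x₀ hR hB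
  let χ : ContDiffBump x₀ := ⟨R, 3 / 2 * R, hR, by linarith⟩
  have hχ1 : ∀ x ∈ ball x₀ R, χ x = 1 := fun x hx =>
    χ.one_of_mem_closedBall (ball_subset_closedBall hx)
  have hχs : tsupport (χ : V → ℝ) ⊆ Ω := by
    rw [χ.tsupport_eq]
    exact (closedBall_subset_closedBall (by show 3 / 2 * R ≤ 2 * R; linarith)).trans hB
  have hq : ∀ t ∈ Ioo 0 T, ∀ x ∈ ball x₀ R, χ x * p t x = p t x := fun t _ x hx => by
    rw [hχ1 x hx, one_mul]
  have hBΩ : ball x₀ R ⊆ Ω :=
    (ball_subset_closedBall.trans (closedBall_subset_closedBall (by linarith))).trans hB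
  refine ⟨w, fun t x => χ x * p t x, ⟨h1, smT_cut h.openO χ.contDiff hχs h.smooth_p, h2,
    fun t ht x hx i => ?_, h3⟩, h4⟩
  exact mom_congr isOpen_ball h4 hq ht hx i (h.momentum t ht x (hBΩ hx) i)

end Pool.Agent.Y537.D7
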