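import Pool.Agent.W221.NS.Stm3

/-!
Divergence-free extension of a local solution: calculus (helper537).
-/

set_option autoImplicit false
set_option linter.unusedVariables false

open MeasureTheory Set Metric Filter Topology Function
open scoped ContDiff ENNReal NNReal

namespace Pool.Agent.Y537.D7

open H459R3.NS W221.NS

/-- The function `f` is smooth on `(0, T) × ℝ³`. -/
def SmT (T : ℝ) (f : ℝ → V → ℝ) : Prop :=
  ContDiffOn ℝ ∞ (fun z : ℝ × V => f z.1 z.2) (Ioo 0 T ×ˢ univ)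

lemma slab_open (T : ℝ) : IsOpen (Ioo 0 T ×ˢ (univ : Set V)) := isOpen_Ioo.prod isOpen_univ

lemma SmT.slice {T : ℝ} {f : ℝ → V → ℝ} (h : SmT T f) {t : ℝ} (ht : t ∈ Ioo 0 T) :
    ContDiff ℝ ∞ (f t) := by
  rw [← contDiffOn_univ]
  have h' : ContDiffOn ℝ ∞ (fun z : ℝ × V => f z.1 z.2) (Ioo 0 T ×ˢ univ) := h
  exact h'.comp (contDiff_const.prodMk contDiff_id).contDiffOn
    (fun x _ => ⟨ht, mem_univ _⟩)

lemma SmT.mul {T : ℝ} {f g : ℝ → V → ℝ} (hf : SmT T f) (hg : SmT T g) :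
    SmT T (fun t x => f t x * g t x) := ContDiffOn.mul hf hg

lemma SmT.add {T : ℝ} {f g : ℝ → V → ℝ} (hf : SmT T f) (hg : SmT T g) :
    SmT T (fun t x => f t x + g t x) := ContDiffOn.add hf hg

lemma SmT.sub {T : ℝ} {f g : ℝ → V → ℝ} (hf : SmT T f) (hg : SmT T g) :
    SmT T (fun t x => f t x - g t x) := ContDiffOn.sub hf hg

lemma SmT.neg {T : ℝ} {f : ℝ → V → ℝ} (hf : SmT T f) :
    SmT T (fun t x => - f t x) := ContDiffOn.neg hf

lemma SmT.const_mul {T : ℝ} {g : ℝ → V → ℝ} {f : V → ℝ} (hf : ContDiff ℝ ∞ f) (hg : SmT T g) :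
    SmT T (fun t x => f x * g t x) :=
  ContDiffOn.mul (hf.comp contDiff_snd).contDiffOn hg

/-- Partial derivatives of a smooth function on the slab. -/
lemma SmT.pd {T : ℝ} {f : ℝ → V → ℝ} (h : SmT T f) (j : Fin 3) :
    SmT T (fun t x => pd j (f t) x) := by
  have hs := slab_open T
  have h1 : ContDiffOn ℝ ∞ (fun z : ℝ × V =>
      fderiv ℝ (fun z : ℝ × V => f z.1 z.2) z ((0 : ℝ), (Pi.single j 1 : V)))
      (Ioo 0 T ×ˢ univ) := by
    have h2 : ContDiffOn ℝ ∞ (fderiv ℝ (fun z : ℝ × V => f z.1 z.2)) (Ioo 0 T ×ˢ univ) :=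
      ContDiffOn.fderiv_of_isOpen h hs (by simp)
    exact h2.clm_apply contDiffOn_const
  refine h1.congr ?_
  rintro ⟨t, x⟩ hz
  have hd : DifferentiableAt ℝ (fun z : ℝ × V => f z.1 z.2) (t, x) :=
    (ContDiffOn.contDiffAt h (hs.mem_nhds hz)).differentiableAt (by simp)
  have h3 : HasFDerivAt (fun y : V => ((t, y) : ℝ × V)) (ContinuousLinearMap.inr ℝ ℝ V) x :=
    hasFDerivAt_prodMk_right t x
  have h4 := HasFDerivAt.comp x (f := fun y : V => ((t, y) : ℝ × V)) hd.hasFDerivAt h3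
  have h5 : fderiv ℝ (f t) x = (fderiv ℝ (fun z : ℝ × V => f z.1 z.2) (t, x)).comp
      (ContinuousLinearMap.inr ℝ ℝ V) := h4.fderiv
  simp only [H459R3.NS.pd]
  rw [h5]
  simp

/-- Multiplication with a cutoff. -/
lemma smT_cut {T : ℝ} {O : Set V} (hO : IsOpen O) {ζ : V → ℝ} (hζ : ContDiff ℝ ∞ ζ)
    (hs : tsupport ζ ⊆ O) {f : ℝ → V → ℝ}
    (hf : ContDiffOn ℝ ∞ (fun z : ℝ × V => f z.1 z.2) (Ioo 0 T ×ˢ O)) :
    SmT T (fun t x => ζ x * f t x) := by
  rintro ⟨t, x⟩ ⟨ht, -⟩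
  apply ContDiffAt.contDiffWithinAt
  by_cases hx : x ∈ O
  · have h1 : ContDiffAt ℝ ∞ (fun z : ℝ × V => f z.1 z.2) (t, x) :=
      hf.contDiffAt ((isOpen_Ioo.prod hO).mem_nhds ⟨ht, hx⟩)
    exact (hζ.comp contDiff_snd).contDiffAt.mul h1
  · have hx' : x ∉ tsupport ζ := fun h => hx (hs h)
    have h2 : (fun z : ℝ × V => ζ z.2 * f z.1 z.2) =ᶠ[𝓝 (t, x)] fun _ => 0 := by
      have h3 : ∀ᶠ z : ℝ × V in 𝓝 (t, x), z.2 ∈ (tsupport ζ)ᶜ :=
        continuous_snd.continuousAt.eventually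
          ((isClosed_tsupport ζ).isOpen_compl.mem_nhds hx')
      filter_upwards [h3] with z hz
      rw [image_eq_zero_of_notMem_tsupport hz, zero_mul]
    exact contDiffAt_const.congr_of_eventuallyEq h2

/-- Parametric integrals over `[0, 1]`. -/
lemma smT_int {T : ℝ} {F : ℝ → ℝ × V → ℝ}
    (hF : ContDiffOn ℝ ∞ (fun q : (ℝ × V) × ℝ => F q.2 q.1)
      ((Ioo 0 T ×ˢ (univ : Set V)) ×ˢ (univ : Set ℝ))) :
    ContDiffOn ℝ ∞ (fun z : ℝ × V => ∫ s in (0 : ℝ)..1, F s z) (Ioo 0 T ×ˢ univ) := by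
  let χ : ContDiffBump (0 : ℝ) := ⟨2, 3, by norm_num, by norm_num⟩
  let g : (ℝ × V) → ℝ → ℝ := fun z s => χ s * F (-s) z
  have hg : ContDiffOn ℝ ∞ (↿g) ((Ioo 0 T ×ˢ (univ : Set V)) ×ˢ (univ : Set ℝ)) := by
    have h1 : ContDiffOn ℝ ∞ (fun q : (ℝ × V) × ℝ => χ q.2)
        ((Ioo 0 T ×ˢ (univ : Set V)) ×ˢ (univ : Set ℝ)) :=
      (χ.contDiff.comp contDiff_snd).contDiffOn
    have h2 : ContDiff ℝ ∞ (fun q : (ℝ × V) × ℝ => ((q.1, -q.2) : (ℝ × V) × ℝ)) := by
      fun_prop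
    have h3 := hF.comp h2.contDiffOn (s := (Ioo 0 T ×ˢ (univ : Set V)) ×ˢ (univ : Set ℝ))
      (fun q hq => ⟨hq.1, mem_univ _⟩)
    exact h1.mul h3
  have key := contDiffOn_convolution_right_with_param_comp (𝕜 := ℝ) (n := ⊤)
    (ContinuousLinearMap.mul ℝ ℝ) (s := Ioo 0 T ×ˢ (univ : Set V))
    (v := fun _ : ℝ × V => (0 : ℝ)) contDiffOn_const
    (f := (Ioc (0 : ℝ) 1).indicator fun _ => (1 : ℝ)) (g := g)
    (k := closedBall (0 : ℝ) 3) (slab_open T) (isCompact_closedBall 0 3)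
    (fun z s _ hs => by
      have : χ s = 0 := by
        apply χ.zero_of_le_dist
        rw [mem_closedBall, not_le] at hs
        exact hs.le
      simp [g, this]) (μ := (volume : Measure ℝ))
    ((locallyIntegrable_const 1).indicator measurableSet_Ioc) hg
  refine key.congr ?_
  intro z _
  simp only [convolution_def, ContinuousLinearMap.mul_apply', zero_sub]
  rw [intervalIntegral.integral_of_le zero_le_one, ← integral_indicator measurableSet_Ioc]
  congr 1
  ext s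
  by_cases hs : s ∈ Ioc (0 : ℝ) 1
  · have h1 : χ (-s) = 1 := by
      apply χ.one_of_mem_closedBall
      rw [mem_closedBall, dist_zero_right, norm_neg, Real.norm_eq_abs, abs_of_pos hs.1]
      exact hs.2.trans (by norm_num)
    simp [indicator_of_mem hs, g, h1]
  · simp [indicator_of_notMem hs]

/-- The primitive in the direction of the `j`-th coordinate, zero at `x j = c`. -/
noncomputable def pr (j : Fin 3) (c : ℝ) (f : V → ℝ) (x : V) : ℝ :=
  ∫ r in c..x j, f (x + (r - x j) • (Pi.single j 1 : V))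

lemma pr_eq (j : Fin 3) (c : ℝ) (f : V → ℝ) (x : V) :
    pr j c f x = (x j - c) *
      ∫ s in (0 : ℝ)..1, f (x + ((s - 1) * (x j - c)) • (Pi.single j 1 : V)) := by
  have h := intervalIntegral.smul_integral_comp_mul_add (a := 0) (b := 1)
    (fun r => f (x + (r - x j) • (Pi.single j 1 : V))) (x j - c) c
  rw [pr]
  simp only [mul_zero, zero_add, mul_one, sub_add_cancel, smul_eq_mul] at h
  rw [← h]
  congr 1
  apply intervalIntegral.integral_congr
  intro s _
  simp only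
  congr 3
  ring

lemma smT_pr {T : ℝ} {f : ℝ → V → ℝ} (h : SmT T f) (j : Fin 3) (c : ℝ) :
    SmT T (fun t x => pr j c (f t) x) := by
  have h1 : ContDiffOn ℝ ∞ (fun z : ℝ × V => ∫ s in (0 : ℝ)..1,
      f z.1 (z.2 + ((s - 1) * (z.2 j - c)) • (Pi.single j 1 : V))) (Ioo 0 T ×ˢ univ) := by
    apply smT_int (F := fun s z => f z.1 (z.2 + ((s - 1) * (z.2 j - c)) • (Pi.single j 1 : V)))
    have h2 : ContDiff ℝ ∞ (fun q : (ℝ × V) × ℝ =>
        ((q.1.1, q.1.2 + ((q.2 - 1) * (q.1.2 j - c)) • (Pi.single j 1 : V)) : ℝ × V)) := by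
      fun_prop
    exact ContDiffOn.comp h h2.contDiffOn (fun q hq => ⟨hq.1.1, mem_univ _⟩)
  have h3 : ContDiff ℝ ∞ (fun z : ℝ × V => z.2 j - c) := by fun_prop
  refine (h3.contDiffOn.mul h1).congr ?_
  intro z _
  exact pr_eq j c (f z.1) z.2

/-- The derivative in the direction of a coordinate vector, as a derivative of one variable. -/
lemma hasDerivAt_line {g : V → ℝ} (hg : Differentiable ℝ g) (j : Fin 3) (x : V) :
    HasDerivAt (fun h : ℝ => g (x + h • (Pi.single j 1 : V))) (H459R3.NS.pd j g x) 0 := by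
  have h1 : HasDerivAt (fun h : ℝ => x + h • (Pi.single j 1 : V)) (Pi.single j 1 : V) 0 := by
    simpa using ((hasDerivAt_id (0 : ℝ)).smul_const (Pi.single j 1 : V)).const_add x
  have h2 : HasFDerivAt g (fderiv ℝ g x) (x + (0 : ℝ) • (Pi.single j 1 : V)) := by
    simpa using (hg x).hasFDerivAt
  exact h2.comp_hasDerivAt (0 : ℝ) h1

lemma pd_of_line {g : V → ℝ} (hg : Differentiable ℝ g) {j : Fin 3} {x : V} {d : ℝ}
    (h : HasDerivAt (fun h : ℝ => g (x + h • (Pi.single j 1 : V))) d 0) :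
    H459R3.NS.pd j g x = d := (hasDerivAt_line hg j x).unique h

/-- The derivative of the primitive in its own direction. -/
lemma pd_pr_self {f : V → ℝ} (hf : Continuous f) (j : Fin 3) (c : ℝ)
    (hd : Differentiable ℝ (pr j c f)) (x : V) : H459R3.NS.pd j (pr j c f) x = f x := by
  apply pd_of_line hd
  have h1 : ∀ h : ℝ, pr j c f (x + h • (Pi.single j 1 : V))
      = ∫ r in c..x j + h, f (x + (r - x j) • (Pi.single j 1 : V)) := by
    intro h
    rw [pr]
    have h2 : (x + h • (Pi.single j 1 : V)) j = x j + h := by simp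
    rw [h2]
    apply intervalIntegral.integral_congr
    intro r _
    simp only
    congr 1
    rw [add_assoc, ← add_smul]
    congr 2
    ring
  simp_rw [h1]
  have hc : Continuous fun r : ℝ => f (x + (r - x j) • (Pi.single j 1 : V)) := by fun_prop
  have h3 := (hc.integral_hasStrictDerivAt c (x j + 0)).hasDerivAt
  have h4 : HasDerivAt (fun h : ℝ => x j + h) 1 0 := by
    simpa using (hasDerivAt_id (0 : ℝ)).const_add (x j)
  have h5 : HasDerivAt (fun h : ℝ => ∫ r in c..x j + h, f (x + (r - x j) • (Pi.single j 1 : V)))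
      (f (x + ((x j + 0) - x j) • (Pi.single j 1 : V)) * 1) 0 := HasDerivAt.comp (0 : ℝ) h3 h4
  refine h5.congr_deriv ?_
  simp

/-- Derivative of a primitive with respect to a parameter. -/
lemma hasDerivAt_par {G : ℝ × ℝ → ℝ} (hG : ContDiff ℝ ∞ G) (a b : ℝ) :
    HasDerivAt (fun h : ℝ => ∫ r in a..b, G (h, r))
      (∫ r in a..b, fderiv ℝ G (0, r) (1, 0)) 0 := by
  have hc : Continuous fun q : ℝ × ℝ => fderiv ℝ G q (1, 0) :=
    (hG.continuous_fderiv (by simp)).clm_apply continuous_const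
  obtain ⟨M, hM⟩ := ((isCompact_closedBall (0 : ℝ) 1).prod (isCompact_uIcc (a := a) (b := b))
    ).exists_bound_of_continuousOn hc.continuousOn
  have hcG := hG.continuous
  refine (intervalIntegral.hasDerivAt_integral_of_dominated_loc_of_deriv_le
    (F := fun h r => G (h, r)) (F' := fun h r => fderiv ℝ G (h, r) (1, 0)) (bound := fun _ => M)
    (s := ball (0 : ℝ) 1) (ball_mem_nhds 0 one_pos)
    ?_ ?_ ?_ ?_ ?_ ?_).2
  · exact Eventually.of_forall fun h =>
      (by fun_prop : Continuous fun r => G (h, r)).aestronglyMeasurable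
  · exact (by fun_prop : Continuous fun r => G ((0 : ℝ), r)).intervalIntegrable _ _
  · exact (hc.comp (by fun_prop : Continuous fun r : ℝ => ((0 : ℝ), r))).aestronglyMeasurable
  · refine Eventually.of_forall fun r hr h hh => ?_
    exact hM (h, r) ⟨ball_subset_closedBall hh, uIoc_subset_uIcc hr⟩
  · exact intervalIntegrable_const
  · refine Eventually.of_forall fun r _ h _ => ?_
    have h1 : HasDerivAt (fun h : ℝ => ((h, r) : ℝ × ℝ)) ((1 : ℝ), (0 : ℝ)) h :=
      (hasDerivAt_id h).prodMk (hasDerivAt_const h r)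
    exact ((hG.differentiable (by simp)) (h, r)).hasFDerivAt.comp_hasDerivAt h h1

/-- The derivative of the primitive in another direction. -/
lemma pd_pr_of_ne {f : V → ℝ} (hf : ContDiff ℝ ∞ f) {j k : Fin 3} (hjk : k ≠ j) (c : ℝ)
    (hd : Differentiable ℝ (pr j c f)) (x : V) :
    H459R3.NS.pd k (pr j c f) x = pr j c (H459R3.NS.pd k f) x := by
  apply pd_of_line hd
  have h1 : ∀ h : ℝ, pr j c f (x + h • (Pi.single k 1 : V)) = ∫ r in c..x j,
      (fun q : ℝ × ℝ => f (x + q.1 • (Pi.single k 1 : V) + (q.2 - x j) • (Pi.single j 1 : V)))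
        (h, r) := by
    intro h
    rw [pr]
    have h2 : (x + h • (Pi.single k 1 : V)) j = x j := by
      simp [hjk.symm]
    rw [h2]
  simp_rw [h1]
  have h3 := hasDerivAt_par (G := fun q : ℝ × ℝ =>
    f (x + q.1 • (Pi.single k 1 : V) + (q.2 - x j) • (Pi.single j 1 : V))) (by fun_prop) c (x j)
  refine h3.congr_deriv ?_
  rw [pr]
  apply intervalIntegral.integral_congr
  intro r _
  simp only
  have hG : DifferentiableAt ℝ (fun q : ℝ × ℝ =>
    f (x + q.1 • (Pi.single k 1 : V) + (q.2 - x j) • (Pi.single j 1 : V))) (0, r) :=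
    ((by fun_prop : ContDiff ℝ ∞ (fun q : ℝ × ℝ =>
    f (x + q.1 • (Pi.single k 1 : V) + (q.2 - x j) • (Pi.single j 1 : V)))).differentiable
      (by simp)) _
  have h4 : HasDerivAt (fun h : ℝ => ((h, r) : ℝ × ℝ)) ((1 : ℝ), (0 : ℝ)) 0 :=
    (hasDerivAt_id (0 : ℝ)).prodMk (hasDerivAt_const (0 : ℝ) r)
  have h5 := hG.hasFDerivAt.comp_hasDerivAt (0 : ℝ) h4
  have h6 := hasDerivAt_line (hf.differentiable (by simp)) k
    (x + (r - x j) • (Pi.single j 1 : V))
  refine h5.unique (h6.congr_of_eventuallyEq (Eventually.of_forall fun h => ?_))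
  simp only [Function.comp]
  congr 1
  abel

end Pool.Agent.Y537.D7
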