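import Pool.Agent.Y537.D7.A

/-!
Divergence-free extension of a local solution: construction (helper537).
-/

set_option autoImplicit false
set_option linter.unusedVariables false

open MeasureTheory Set Metric Filter Topology Function
open scoped ContDiff ENNReal NNReal

namespace Pool.Agent.Y537.D7

open H459R3.NS W221.NS

lemma cd_pd {f : V → ℝ} (hf : ContDiff ℝ ∞ f) (j : Fin 3) :
    ContDiff ℝ ∞ (H459R3.NS.pd j f) :=
  (hf.fderiv_right (m := ∞) (by simp)).clm_apply contDiff_const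

lemma df {f : V → ℝ} (hf : ContDiff ℝ ∞ f) : Differentiable ℝ f := hf.differentiable (by simp)

lemma pd_cm {f : V → ℝ} (hf : ContDiff ℝ ∞ f) (i j : Fin 3) (x : V) :
    H459R3.NS.pd i (H459R3.NS.pd j f) x = H459R3.NS.pd j (H459R3.NS.pd i f) x := by
  have h1 : ∀ k l : Fin 3, H459R3.NS.pd k (H459R3.NS.pd l f) x
      = fderiv ℝ (fderiv ℝ f) x (Pi.single k 1) (Pi.single l 1) := by
    intro k l
    have h2 : DifferentiableAt ℝ (fderiv ℝ f) x :=
      ((hf.fderiv_right (m := ∞) (by simp)).differentiable (by simp)) x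
    have h3 : HasFDerivAt (fun y => fderiv ℝ f y (Pi.single l 1)) _ x :=
      h2.hasFDerivAt.clm_apply (hasFDerivAt_const (Pi.single l (1 : ℝ) : V) x)
    unfold H459R3.NS.pd
    rw [h3.fderiv]
    simp
  rw [h1, h1]
  exact second_derivative_symmetric (fun y => (df hf y).hasFDerivAt)
    ((hf.fderiv_right (m := ∞) (by simp)).differentiable (by simp) x).hasFDerivAt _ _

lemma pd_congr' {f g : V → ℝ} {x : V} (h : f =ᶠ[𝓝 x] g) (j : Fin 3) :
    H459R3.NS.pd j f x = H459R3.NS.pd j g x := by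
  simp only [H459R3.NS.pd, h.fderiv_eq]

lemma pd_add' {f g : V → ℝ} {x : V} (hf : DifferentiableAt ℝ f x) (hg : DifferentiableAt ℝ g x)
    (j : Fin 3) : H459R3.NS.pd j (fun y => f y + g y) x
      = H459R3.NS.pd j f x + H459R3.NS.pd j g x := by
  simp only [H459R3.NS.pd]
  rw [fderiv_fun_add hf hg]
  rfl

lemma pd_sub' {f g : V → ℝ} {x : V} (hf : DifferentiableAt ℝ f x) (hg : DifferentiableAt ℝ g x)
    (j : Fin 3) : H459R3.NS.pd j (fun y => f y - g y) x
      = H459R3.NS.pd j f x - H459R3.NS.pd j g x := by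
  simp only [H459R3.NS.pd]
  rw [fderiv_fun_sub hf hg]
  rfl

lemma pd_neg' {f : V → ℝ} {x : V}
    (j : Fin 3) : H459R3.NS.pd j (fun y => - f y) x = - H459R3.NS.pd j f x := by
  simp only [H459R3.NS.pd]
  rw [fderiv_fun_neg]
  rfl

/-- The fundamental theorem of calculus on a segment parallel to an axis. -/
lemma pr_pd {f : V → ℝ} (hf : ContDiff ℝ ∞ f) (j : Fin 3) (c : ℝ) (x : V) :
    pr j c (H459R3.NS.pd j f) x = f x - f (x + (c - x j) • (Pi.single j 1 : V)) := by
  have h : ∀ r ∈ uIcc c (x j), HasDerivAt (fun r => f (x + (r - x j) • (Pi.single j 1 : V)))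
      (H459R3.NS.pd j f (x + (r - x j) • (Pi.single j 1 : V))) r := by
    intro r _
    have h1 : HasDerivAt (fun r : ℝ => x + (r - x j) • (Pi.single j 1 : V))
        (Pi.single j 1 : V) r := by
      simpa using (((hasDerivAt_id r).sub_const (x j)).smul_const (Pi.single j 1 : V)).const_add x
    exact (df hf _).hasFDerivAt.comp_hasDerivAt r h1
  rw [pr, intervalIntegral.integral_eq_sub_of_hasDerivAt h]
  · simp
  · have := (cd_pd hf j).continuous
    exact (by fun_prop : Continuous fun r : ℝ =>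
      H459R3.NS.pd j f (x + (r - x j) • (Pi.single j 1 : V))).intervalIntegrable _ _

/-- The restriction to the plane `x 2 = c`, extended constantly. -/
def fl (c : ℝ) (f : V → ℝ) (x : V) : ℝ := f (x + (c - x 2) • (Pi.single 2 1 : V))

lemma pd_fl {f : V → ℝ} (hf : ContDiff ℝ ∞ f) (c : ℝ) (x : V) :
    H459R3.NS.pd 2 (fl c f) x = 0 := by
  have h0 : ContDiff ℝ ∞ (fl c f) := by
    unfold fl
    fun_prop
  apply pd_of_line (df h0)
  refine (hasDerivAt_const (0 : ℝ) (fl c f x)).congr_of_eventuallyEq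
    (Eventually.of_forall fun h => ?_)
  simp only [fl]
  congr 1
  have h2 : (x + h • (Pi.single 2 1 : V)) 2 = x 2 + h := by simp
  rw [h2, add_assoc, ← add_smul]
  congr 2
  ring

/-- First potential. -/
noncomputable def pa (c : V) (U : Fin 3 → V → ℝ) : V → ℝ := pr 2 (c 2) (U 1)

/-- Second potential. -/
noncomputable def pb (c : V) (U : Fin 3 → V → ℝ) : V → ℝ := fun x =>
  pr 0 (c 0) (fl (c 2) (U 2)) x - pr 2 (c 2) (U 0) x

lemma pr_congr {f g : V → ℝ} {j : Fin 3} {c : ℝ} {x : V}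
    (h : ∀ r ∈ uIcc c (x j), f (x + (r - x j) • (Pi.single j 1 : V))
      = g (x + (r - x j) • (Pi.single j 1 : V))) : pr j c f x = pr j c g x :=
  intervalIntegral.integral_congr h

/-- The rotation of `(pa, pb, 0)` at a point of the cube. -/
lemma curl_eq {c : V} {R : ℝ} {U : Fin 3 → V → ℝ} (hU : ∀ i, ContDiff ℝ ∞ (U i))
    (ha : Differentiable ℝ (pa c U)) (hb1 : Differentiable ℝ (pr 0 (c 0) (fl (c 2) (U 2))))
    (hb2 : Differentiable ℝ (pr 2 (c 2) (U 0)))
    (hdiv : ∀ x ∈ ball c R, ∑ i, H459R3.NS.pd i (U i) x = 0) {x : V} (hx : x ∈ ball c R) :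
    - H459R3.NS.pd 2 (pb c U) x = U 0 x ∧ H459R3.NS.pd 2 (pa c U) x = U 1 x ∧
      H459R3.NS.pd 0 (pb c U) x - H459R3.NS.pd 1 (pa c U) x = U 2 x := by
  have hf : ContDiff ℝ ∞ (fl (c 2) (U 2)) := by
    have := hU 2
    unfold fl
    fun_prop
  refine ⟨?_, ?_, ?_⟩
  · unfold pb
    rw [pd_sub' (hb1 x) (hb2 x), pd_pr_self (hU 0).continuous 2 _ hb2,
      pd_pr_of_ne hf (by decide) _ hb1]
    have h1 : pr 0 (c 0) (H459R3.NS.pd 2 (fl (c 2) (U 2))) x = 0 := by
      rw [pr]
      simp [pd_fl (hU 2)]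
    rw [h1]
    ring
  · exact pd_pr_self (hU 1).continuous 2 _ ha x
  · unfold pb
    rw [pd_sub' (hb1 x) (hb2 x), pd_pr_self hf.continuous 0 _ hb1,
      pd_pr_of_ne (hU 0) (by decide) _ hb2]
    unfold pa
    rw [pd_pr_of_ne (hU 1) (by decide) _ ha]
    have h1 : pr 2 (c 2) (H459R3.NS.pd 2 (U 2)) x
        = - pr 2 (c 2) (H459R3.NS.pd 0 (U 0)) x - pr 2 (c 2) (H459R3.NS.pd 1 (U 1)) x := by
      have h2 : ∀ i, Continuous fun r : ℝ =>
          H459R3.NS.pd i (U i) (x + (r - x 2) • (Pi.single 2 1 : V)) := fun i => by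
        have := (cd_pd (hU i) i).continuous
        fun_prop
      have e1 : IntervalIntegrable (fun r : ℝ =>
          - H459R3.NS.pd 0 (U 0) (x + (r - x 2) • (Pi.single 2 1 : V))) volume (c 2) (x 2) :=
        (h2 0).neg.intervalIntegrable _ _
      simp only [pr]
      rw [← intervalIntegral.integral_neg, ← intervalIntegral.integral_sub
        e1 ((h2 1).intervalIntegrable _ _)]
      apply intervalIntegral.integral_congr
      intro r hr
      have h3 : x + (r - x 2) • (Pi.single 2 1 : V) ∈ ball c R := by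
        have hR : 0 < R := pos_of_mem_ball hx
        rw [mem_ball, dist_pi_lt_iff hR] at hx ⊢
        intro i
        by_cases hi : i = 2
        · subst hi
          have h4 := hx 2
          rw [Real.dist_eq] at h4 ⊢
          simp only [Pi.add_apply, Pi.smul_apply, Pi.single_eq_same, smul_eq_mul, mul_one,
            add_sub_cancel]
          rw [abs_lt] at h4 ⊢
          rcases mem_uIcc.1 hr with h5 | h5 <;> constructor <;> linarith [h5.1, h5.2, h4.1, h4.2]
        · have h4 := hx i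
          simpa [hi] using h4
      have h4 := hdiv _ h3
      rw [Fin.sum_univ_three] at h4
      simp only
      linarith
    have h5 := pr_pd (hU 2) 2 (c 2) x
    have h6 : fl (c 2) (U 2) x = U 2 (x + (c 2 - x 2) • (Pi.single 2 1 : V)) := rfl
    rw [h6]
    linarith

/-- The field `rot (f, g, 0)`. -/
noncomputable def rot (f g : V → ℝ) (x : V) : V :=
  ![- H459R3.NS.pd 2 g x, H459R3.NS.pd 2 f x, H459R3.NS.pd 0 g x - H459R3.NS.pd 1 f x]

lemma dv_rot {f g : V → ℝ} (hf : ContDiff ℝ ∞ f) (hg : ContDiff ℝ ∞ g) (x : V) :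
    dv (rot f g) x = 0 := by
  unfold dv
  rw [Fin.sum_univ_three]
  have h0 : (fun y => rot f g y 0) = fun y => - H459R3.NS.pd 2 g y := by
    ext y; simp [rot]
  have h1 : (fun y => rot f g y 1) = fun y => H459R3.NS.pd 2 f y := by
    ext y; simp [rot]
  have h2 : (fun y => rot f g y 2) = fun y => H459R3.NS.pd 0 g y - H459R3.NS.pd 1 f y := by
    ext y; simp [rot]
  rw [h0, h1, h2, pd_neg', pd_sub' (df (cd_pd hg 0) x) (df (cd_pd hf 1) x), pd_cm hg 0 2,
    show H459R3.NS.pd 1 (fun y => H459R3.NS.pd 2 f y) x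
      = H459R3.NS.pd 1 (H459R3.NS.pd 2 f) x from rfl, pd_cm hf 1 2]
  ring

end Pool.Agent.Y537.D7
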