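import Pool.Agent.Y537.D7.B

/-!
Divergence-free extension of a local solution: the extended field (helper537).
-/

set_option autoImplicit false
set_option linter.unusedVariables false

open MeasureTheory Set Metric Filter Topology Function
open scoped ContDiff ENNReal NNReal

namespace Pool.Agent.Y537.D7

open H459R3.NS W221.NS

lemma SmT.bdd {T : ℝ} {f : ℝ → V → ℝ} (h : SmT T f) {a b : ℝ} (ha : 0 < a) (hb : b < T)
    {K : Set V} (hK : IsCompact K) (h0 : ∀ t ∈ Ioo 0 T, ∀ x, x ∉ K → f t x = 0) :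
    ∃ M : ℝ, 0 ≤ M ∧ ∀ t ∈ Icc a b, ∀ x, |f t x| ≤ M := by
  have hc : ContinuousOn (fun z : ℝ × V => f z.1 z.2) (Icc a b ×ˢ K) :=
    (ContDiffOn.continuousOn h).mono fun z hz =>
      ⟨⟨ha.trans_le hz.1.1, hz.1.2.trans_lt hb⟩, mem_univ _⟩
  obtain ⟨M, hM⟩ := (isCompact_Icc.prod hK).exists_bound_of_continuousOn hc
  refine ⟨|M|, abs_nonneg _, fun t ht x => ?_⟩
  by_cases hx : x ∈ K
  · exact (hM (t, x) ⟨ht, hx⟩).trans (le_abs_self M)
  · rw [h0 t ⟨ha.trans_le ht.1, ht.2.trans_lt hb⟩ x hx, abs_zero]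
    exact abs_nonneg _

lemma pd_zero {g : V → ℝ} {K : Set V} (hK : IsClosed K) (h : ∀ y, y ∉ K → g y = 0) (j : Fin 3)
    {x : V} (hx : x ∉ K) : H459R3.NS.pd j g x = 0 := by
  have h1 : g =ᶠ[𝓝 x] fun _ => 0 := by
    filter_upwards [hK.isOpen_compl.mem_nhds hx] with y hy using h y hy
  rw [pd_congr' h1]
  simp [H459R3.NS.pd]

lemma smT_fl {T : ℝ} {f : ℝ → V → ℝ} (h : SmT T f) (c : ℝ) : SmT T (fun t => fl c (f t)) := by
  have h' : ContDiffOn ℝ ∞ (fun z : ℝ × V => f z.1 z.2) (Ioo 0 T ×ˢ univ) := h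
  have h2 : ContDiff ℝ ∞ (fun z : ℝ × V =>
      ((z.1, z.2 + (c - z.2 2) • (Pi.single 2 1 : V)) : ℝ × V)) := by fun_prop
  exact h'.comp h2.contDiffOn (fun q hq => ⟨hq.1, mem_univ _⟩)

/-- The extension. -/
theorem ext_core {T : ℝ} {Ω : Set V} {u : ℝ → V → V} (hΩ : IsOpen Ω)
    (hu : ContDiffOn ℝ ∞ (fun z : ℝ × V => u z.1 z.2) (Ioo 0 T ×ˢ Ω))
    (hdiv : ∀ t ∈ Ioo 0 T, ∀ x ∈ Ω, ∑ i, pd i (fun y => u t y i) x = 0)
    (x₀ : V) {R : ℝ} (hR : 0 < R) (hB : closedBall x₀ (2 * R) ⊆ Ω) :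
    ∃ (w : ℝ → V → V), ContDiffOn ℝ ∞ (fun z : ℝ × V => w z.1 z.2) (Ioo 0 T ×ˢ univ) ∧
      (∀ t ∈ Ioo 0 T, ∀ x, dv (w t) x = 0) ∧
      (∀ a b : ℝ, 0 < a → b < T → ∃ M : ℝ, 0 ≤ M ∧ ∀ t ∈ Icc a b, ∀ x, ‖w t x‖ ≤ M ∧
        ∀ i j, |pd j (fun y => w t y i) x| ≤ M) ∧
      ∀ t ∈ Ioo 0 T, ∀ x ∈ ball x₀ R, w t x = u t x := by
  let χ : ContDiffBump x₀ := ⟨R, 3 / 2 * R, hR, by linarith⟩
  have hχ : ContDiff ℝ ∞ (χ : V → ℝ) := χ.contDiff
  have hχ1 : ∀ x ∈ ball x₀ R, χ x = 1 := fun x hx =>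
    χ.one_of_mem_closedBall (ball_subset_closedBall hx)
  have hχs : tsupport (χ : V → ℝ) ⊆ Ω := by
    rw [χ.tsupport_eq]
    exact (closedBall_subset_closedBall (by show 3 / 2 * R ≤ 2 * R; linarith)).trans hB
  have hχK : IsCompact (tsupport (χ : V → ℝ)) := by
    rw [χ.tsupport_eq]
    exact isCompact_closedBall _ _
  have hχc : IsClosed (tsupport (χ : V → ℝ)) := isClosed_tsupport _
  have hBΩ : ball x₀ R ⊆ Ω :=
    (ball_subset_closedBall.trans (closedBall_subset_closedBall (by linarith))).trans hB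
  let U : Fin 3 → ℝ → V → ℝ := fun i t x => χ x * u t x i
  have hU : ∀ i, SmT T (U i) := fun i =>
    smT_cut hΩ hχ hχs (f := fun t x => u t x i) (contDiffOn_pi.1 hu i)
  have hUe : ∀ i t, ∀ x ∈ ball x₀ R, (U i t) =ᶠ[𝓝 x] fun y => u t y i := by
    intro i t x hx
    filter_upwards [isOpen_ball.mem_nhds hx] with y hy
    simp only [U, hχ1 y hy, one_mul]
  have hUd : ∀ t ∈ Ioo 0 T, ∀ x ∈ ball x₀ R, ∑ i, pd i (U i t) x = 0 := by
    intro t ht x hx
    rw [← hdiv t ht x (hBΩ hx)]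
    exact Finset.sum_congr rfl fun i _ => pd_congr' (hUe i t x hx) i
  let A : ℝ → V → ℝ := fun t => pa x₀ (fun i => U i t)
  let B : ℝ → V → ℝ := fun t => pb x₀ (fun i => U i t)
  have hA : SmT T A := smT_pr (hU 1) 2 (x₀ 2)
  have hB1 : SmT T (fun t => pr 0 (x₀ 0) (fl (x₀ 2) (U 2 t))) :=
    smT_pr (smT_fl (hU 2) (x₀ 2)) 0 (x₀ 0)
  have hB2 : SmT T (fun t => pr 2 (x₀ 2) (U 0 t)) := smT_pr (hU 0) 2 (x₀ 2)
  have hBB : SmT T B := hB1.sub hB2
  let a : ℝ → V → ℝ := fun t x => χ x * A t x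
  let b : ℝ → V → ℝ := fun t x => χ x * B t x
  have ha : SmT T a := SmT.const_mul hχ hA
  have hb : SmT T b := SmT.const_mul hχ hBB
  let w : ℝ → V → V := fun t => rot (a t) (b t)
  have hw0 : (fun t x => w t x 0) = fun t x => - pd 2 (b t) x := by
    ext t x; simp [w, rot]
  have hw1 : (fun t x => w t x 1) = fun t x => pd 2 (a t) x := by
    ext t x; simp [w, rot]
  have hw2 : (fun t x => w t x 2) = fun t x => pd 0 (b t) x - pd 1 (a t) x := by
    ext t x; simp [w, rot]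
  have hw : ∀ i, SmT T (fun t x => w t x i) := by
    intro i
    fin_cases i
    · show SmT T (fun t x => w t x 0)
      rw [hw0]
      exact (hb.pd 2).neg
    · show SmT T (fun t x => w t x 1)
      rw [hw1]
      exact ha.pd 2
    · show SmT T (fun t x => w t x 2)
      rw [hw2]
      exact (hb.pd 0).sub (ha.pd 1)
  have ha0 : ∀ t, ∀ y, y ∉ tsupport (χ : V → ℝ) → a t y = 0 := fun t y hy => by
    simp only [a, image_eq_zero_of_notMem_tsupport hy, zero_mul]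
  have hb0 : ∀ t, ∀ y, y ∉ tsupport (χ : V → ℝ) → b t y = 0 := fun t y hy => by
    simp only [b, image_eq_zero_of_notMem_tsupport hy, zero_mul]
  have hw00 : ∀ i t, ∀ y, y ∉ tsupport (χ : V → ℝ) → w t y i = 0 := by
    intro i t y hy
    fin_cases i
    · show w t y 0 = 0
      rw [show w t y 0 = - pd 2 (b t) y from congrFun (congrFun hw0 t) y,
        pd_zero hχc (hb0 t) 2 hy, neg_zero]
    · show w t y 1 = 0
      rw [show w t y 1 = pd 2 (a t) y from congrFun (congrFun hw1 t) y,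
        pd_zero hχc (ha0 t) 2 hy]
    · show w t y 2 = 0
      rw [show w t y 2 = pd 0 (b t) y - pd 1 (a t) y from congrFun (congrFun hw2 t) y,
        pd_zero hχc (hb0 t) 0 hy, pd_zero hχc (ha0 t) 1 hy, sub_zero]
  refine ⟨w, contDiffOn_pi.2 hw, fun t ht x => dv_rot (ha.slice ht) (hb.slice ht) x, ?_, ?_⟩
  · intro α β hα hβ
    have h1 : ∀ i, ∃ M : ℝ, 0 ≤ M ∧ ∀ t ∈ Icc α β, ∀ x, |w t x i| ≤ M := fun i =>
      (hw i).bdd hα hβ hχK (fun t _ x hx => hw00 i t x hx)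
    have h2 : ∀ i j, ∃ M : ℝ, 0 ≤ M ∧ ∀ t ∈ Icc α β, ∀ x, |pd j (fun y => w t y i) x| ≤ M :=
      fun i j => ((hw i).pd j).bdd hα hβ hχK (fun t _ x hx => pd_zero hχc (hw00 i t) j hx)
    choose M1 hM1 hM1' using h1
    choose M2 hM2 hM2' using h2
    have s1 : ∀ i, M1 i ≤ ∑ i, M1 i := fun i =>
      Finset.single_le_sum (f := M1) (fun i _ => hM1 i) (Finset.mem_univ i)
    have s2 : ∀ i j, M2 i j ≤ ∑ i, ∑ j, M2 i j := fun i j =>
      (Finset.single_le_sum (f := M2 i) (fun j _ => hM2 i j) (Finset.mem_univ j)).trans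
        (Finset.single_le_sum (f := fun i => ∑ j, M2 i j)
          (fun i _ => Finset.sum_nonneg fun j _ => hM2 i j) (Finset.mem_univ i))
    have p1 : 0 ≤ ∑ i, M1 i := Finset.sum_nonneg fun i _ => hM1 i
    have p2 : 0 ≤ ∑ i, ∑ j, M2 i j :=
      Finset.sum_nonneg fun i _ => Finset.sum_nonneg fun j _ => hM2 i j
    refine ⟨∑ i, M1 i + ∑ i, ∑ j, M2 i j, by positivity, fun t ht x => ⟨?_, fun i j => ?_⟩⟩
    · rw [pi_norm_le_iff_of_nonneg (by positivity)]
      intro i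
      rw [Real.norm_eq_abs]
      linarith [hM1' i t ht x, s1 i]
    · linarith [hM2' i j t ht x, s2 i j]
  · intro t ht x hx
    have hea : a t =ᶠ[𝓝 x] A t := by
      filter_upwards [isOpen_ball.mem_nhds hx] with y hy
      simp only [a, hχ1 y hy, one_mul]
    have heb : b t =ᶠ[𝓝 x] B t := by
      filter_upwards [isOpen_ball.mem_nhds hx] with y hy
      simp only [b, hχ1 y hy, one_mul]
    have key := curl_eq (c := x₀) (R := R) (U := fun i => U i t) (fun i => (hU i).slice ht)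
      (df (hA.slice ht)) (df (hB1.slice ht)) (df (hB2.slice ht)) (hUd t ht) hx
    have hUx : ∀ i, U i t x = u t x i := fun i => by simp only [U, hχ1 x hx, one_mul]
    ext i
    fin_cases i
    · show w t x 0 = u t x 0
      rw [show w t x 0 = - pd 2 (b t) x from congrFun (congrFun hw0 t) x, pd_congr' heb,
        ← hUx 0]
      exact key.1
    · show w t x 1 = u t x 1
      rw [show w t x 1 = pd 2 (a t) x from congrFun (congrFun hw1 t) x, pd_congr' hea,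
        ← hUx 1]
      exact key.2.1
    · show w t x 2 = u t x 2
      rw [show w t x 2 = pd 0 (b t) x - pd 1 (a t) x from congrFun (congrFun hw2 t) x,
        pd_congr' hea, pd_congr' heb, ← hUx 2]
      exact key.2.2

/-- Derivatives of locally equal fields. -/
lemma mom_congr {T : ℝ} {B : Set V} (hB : IsOpen B) {w u : ℝ → V → V} {q p : ℝ → V → ℝ}
    (hw : ∀ t ∈ Ioo 0 T, ∀ x ∈ B, w t x = u t x) (hq : ∀ t ∈ Ioo 0 T, ∀ x ∈ B, q t x = p t x)
    {t : ℝ} (ht : t ∈ Ioo 0 T) {x : V} (hx : x ∈ B) (i : Fin 3)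
    (h : deriv (fun s => u s x i) t + ∑ j, u t x j * pd j (fun y => u t y i) x
      = 1 * ∑ j, pd j (pd j (fun y => u t y i)) x - pd i (p t) x) :
    deriv (fun s => w s x i) t + adv (w t) (fun y => w t y i) x
      = lap (fun y => w t y i) x - pd i (q t) x := by
  have e1 : (fun s => w s x i) =ᶠ[𝓝 t] fun s => u s x i := by
    filter_upwards [isOpen_Ioo.mem_nhds ht] with s hs
    rw [hw s hs x hx]
  have e2 : ∀ y ∈ B, (fun y => w t y i) =ᶠ[𝓝 y] fun y => u t y i := by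
    intro y hy
    filter_upwards [hB.mem_nhds hy] with z hz
    rw [hw t ht z hz]
  have e3 : q t =ᶠ[𝓝 x] p t := by
    filter_upwards [hB.mem_nhds hx] with z hz using hq t ht z hz
  have e4 : ∀ j, pd j (fun y => w t y i) =ᶠ[𝓝 x] pd j (fun y => u t y i) := by
    intro j
    filter_upwards [hB.mem_nhds hx] with z hz using pd_congr' (e2 z hz) j
  rw [e1.deriv_eq, pd_congr' e3, adv, lap]
  simp only [pd_congr' (e2 x hx), pd_congr' (e4 _), hw t ht x hx]
  rw [h, one_mul]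

end Pool.Agent.Y537.D7
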